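import Mathlib

/-!
# MP_c72560_an: Assouad dimension of projections of self-similar sets

A self-similar set `F ⊆ [0,1]^3` whose orthogonal projections to all planes but one have Assouad
dimension `1` and Hausdorff dimension at most `1/2`.

`F` lies on a line: it is the attractor of the maps `x/9`, `x/16` and `x/9 + (8/9) e_1`. Its Hausdorff
dimension is at most `1/2` as `1/3 + 1/4 + 1/3 < 1`. It contains the points `9^(-m) 16^(-n) e_1`, and
because `log 9 / log 16` is irrational these are, near the origin, relatively dense in whole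
intervals at some small scales; so the Assouad dimension is `1`. Both facts are kept by every projection
that does not kill `e_1`.
-/

set_option autoImplicit false

open MeasureTheory Set Topology Filter Metric
open scoped ENNReal NNReal Pointwise

namespace Pool.Agent.Results.MP_c72560_an.AssouadProjections

/-- Euclidean space. -/
abbrev E (d : ℕ) := EuclideanSpace ℝ (Fin d)

/-- The unit cube `[0,1]^d`. -/
def cube (d : ℕ) : Set (E d) := {x | ∀ i, 0 ≤ x i ∧ x i ≤ 1}

/-- `F` is a self-similar set: the non-empty compact subset `F` of the cube with `F = ⋃ S_i(F)` for a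
finite family of contracting similarities `S_i(x) = c_i O_i x + t_i` mapping the cube into itself. -/
def IsSelfSimilar {d : ℕ} (F : Set (E d)) : Prop :=
  ∃ (n : ℕ) (c : Fin n → ℝ) (O : Fin n → E d ≃ₗᵢ[ℝ] E d) (t : Fin n → E d),
    (∀ i, 0 < c i ∧ c i < 1) ∧
    (∀ i, ∀ x ∈ cube d, c i • O i x + t i ∈ cube d) ∧
    F.Nonempty ∧ IsCompact F ∧ F ⊆ cube d ∧ F = ⋃ i, (fun x => c i • O i x + t i) '' F

/-- `A` is covered by `n` sets of diameter at most `r`. -/
def Covers {X : Type*} [PseudoEMetricSpace X] (n : ℕ) (r : ℝ) (A : Set X) : Prop :=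
  ∃ U : Fin n → Set X, (∀ i, ediam (U i) ≤ ENNReal.ofReal r) ∧ A ⊆ ⋃ i, U i

/-- The covering number `N_r(A)`. -/
noncomputable def covN {X : Type*} [PseudoEMetricSpace X] (r : ℝ) (A : Set X) : ℝ≥0∞ :=
  ⨅ (n : ℕ) (_ : Covers n r A), (n : ℝ≥0∞)

/-- `s` is admissible in the definition of the Assouad dimension. -/
def IsAssouadExponent {X : Type*} [PseudoMetricSpace X] (A : Set X) (s : ℝ≥0) : Prop :=
  ∃ C : ℝ, 0 < C ∧ ∀ R r : ℝ, 0 < r → r < R → ∀ x ∈ A,
    covN r (ball x R ∩ A) ≤ ENNReal.ofReal (C * (R / r) ^ (s : ℝ))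

/-- The Assouad dimension. -/
noncomputable def dimA {X : Type*} [PseudoMetricSpace X] (A : Set X) : ℝ≥0∞ :=
  ⨅ (s : ℝ≥0) (_ : IsAssouadExponent A s), (s : ℝ≥0∞)

/-- The orthogonal projection of `F` to the linear subspace `W`. -/
def proj {d : ℕ} (W : Submodule ℝ (E d)) (F : Set (E d)) : Set (E d) := W.starProjection '' F

/-- The unit sphere of `ℝ^3`. -/
abbrev Sph : Type := sphere (0 : E 3) 1

/-- The surface measure of the unit sphere of `ℝ^3`. Through `ν ↦ ν^⊥` it parametrises, up to a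
constant factor, the invariant measure on the planes of `ℝ^3`. -/
noncomputable def surface : Measure Sph := (volume : Measure (E 3)).toSphere

/-- The plane orthogonal to `ν`. -/
noncomputable def plane (ν : Sph) : Submodule ℝ (E 3) := (ℝ ∙ (ν : E 3))ᗮ

/-- The Assouad dimension of the projection of `F` to the plane orthogonal to `ν` is neither `2` nor
the Hausdorff dimension of this projection. -/
def Neither (F : Set (E 3)) (ν : Sph) : Prop :=
  dimA (proj (plane ν) F) ≠ 2 ∧ dimA (proj (plane ν) F) ≠ dimH (proj (plane ν) F)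

/-! ### the one dimensional set -/

/-- the orbit of `1` under the semigroup of the IFS -/
inductive Orb : ℝ → Prop
  | one : Orb 1
  | s0 (x : ℝ) : Orb x → Orb (x / 9)
  | s1 (x : ℝ) : Orb x → Orb (x / 16)
  | s2 (x : ℝ) : Orb x → Orb (x / 9 + 8 / 9)

/-- the ratios -/
noncomputable def rat : Fin 3 → ℝ := ![1 / 9, 1 / 16, 1 / 9]

/-- the translations -/
noncomputable def tr : Fin 3 → ℝ := ![0, 0, 8 / 9]

/-- the maps -/
noncomputable def S (i : Fin 3) (x : ℝ) : ℝ := rat i * x + tr i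

lemma S_0 (x : ℝ) : S 0 x = x / 9 := by simp [S, rat, tr]; ring
lemma S_1 (x : ℝ) : S 1 x = x / 16 := by simp [S, rat, tr]; ring
lemma S_2 (x : ℝ) : S 2 x = x / 9 + 8 / 9 := by simp [S, rat, tr]; ring

lemma rat_pos (i : Fin 3) : 0 < rat i ∧ rat i ≤ 1 / 9 := by
  fin_cases i <;> (simp [rat]; try norm_num)

lemma S_cube (i : Fin 3) (x : ℝ) (hx : x ∈ Icc (0 : ℝ) 1) : S i x ∈ Icc (0 : ℝ) 1 := by
  obtain ⟨h1, h2⟩ := hx
  fin_cases i
  · show S 0 x ∈ _
    rw [S_0]; constructor <;> linarith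
  · show S 1 x ∈ _
    rw [S_1]; constructor <;> linarith
  · show S 2 x ∈ _
    rw [S_2]; constructor <;> linarith

/-- the set in the line -/
def F1 : Set ℝ := closure {x | Orb x}

lemma orb_icc (x : ℝ) (hx : Orb x) : x ∈ Icc (0 : ℝ) 1 := by
  induction hx with
  | one => simp
  | s0 x _ ih => rw [← S_0]; exact S_cube 0 x ih
  | s1 x _ ih => rw [← S_1]; exact S_cube 1 x ih
  | s2 x _ ih => rw [← S_2]; exact S_cube 2 x ih

lemma F1_icc : F1 ⊆ Icc (0 : ℝ) 1 := closure_minimal orb_icc isClosed_Icc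

lemma F1_compact : IsCompact F1 := isCompact_Icc.of_isClosed_subset isClosed_closure F1_icc

lemma orb_union : {x | Orb x} = ⋃ i, S i '' {x | Orb x} := by
  ext x
  constructor
  · intro hx
    rw [mem_iUnion]
    cases hx with
    | one => exact ⟨2, 1, Orb.one, by rw [S_2]; norm_num⟩
    | s0 y hy => exact ⟨0, y, hy, S_0 y⟩
    | s1 y hy => exact ⟨1, y, hy, S_1 y⟩
    | s2 y hy => exact ⟨2, y, hy, S_2 y⟩
  · rw [mem_iUnion]
    rintro ⟨i, y, hy, rfl⟩
    fin_cases i
    · show Orb (S 0 y); rw [S_0]; exact Orb.s0 y hy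
    · show Orb (S 1 y); rw [S_1]; exact Orb.s1 y hy
    · show Orb (S 2 y); rw [S_2]; exact Orb.s2 y hy

lemma S_cont (i : Fin 3) : Continuous (S i) := by unfold S; fun_prop

lemma F1_union : F1 = ⋃ i, S i '' F1 := by
  unfold F1
  apply Subset.antisymm
  · refine closure_minimal ?_ (isClosed_iUnion_of_finite fun i =>
      (F1_compact.image (S_cont i)).isClosed)
    intro x hx
    rw [orb_union, mem_iUnion] at hx
    obtain ⟨i, y, hy, rfl⟩ := hx
    exact mem_iUnion.2 ⟨i, y, subset_closure hy, rfl⟩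
  · refine iUnion_subset fun i => ?_
    refine (image_closure_subset_closure_image (S_cont i)).trans (closure_mono ?_)
    rintro _ ⟨y, hy, rfl⟩
    rw [orb_union, mem_iUnion]
    exact ⟨i, y, hy, rfl⟩

lemma zero_mem : (0 : ℝ) ∈ F1 := by
  have h : ∀ n : ℕ, Orb ((1 / 9 : ℝ) ^ n) := by
    intro n
    induction n with
    | zero => simpa using Orb.one
    | succ n ih => rw [pow_succ, mul_one_div]; exact Orb.s0 _ ih
  exact mem_closure_of_tendsto (tendsto_pow_atTop_nhds_zero_of_lt_one (by norm_num) (by norm_num))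
    (Eventually.of_forall h)

lemma mn_mem (m n : ℕ) : (1 / 9 : ℝ) ^ m * (1 / 16) ^ n ∈ F1 := by
  apply subset_closure
  show Orb _
  induction n with
  | zero =>
    rw [pow_zero, mul_one]
    induction m with
    | zero => simpa using Orb.one
    | succ n ih => rw [pow_succ, mul_one_div]; exact Orb.s0 _ ih
  | succ n ih => rw [pow_succ, ← mul_assoc, mul_one_div]; exact Orb.s1 _ ih

/-! ### Hausdorff dimension -/

/-- words -/
def Idx : ℕ → Type
  | 0 => Unit
  | n + 1 => Fin 3 × Idx n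

/-- finiteness -/
instance idxFintype : (n : ℕ) → Fintype (Idx n)
  | 0 => inferInstanceAs (Fintype Unit)
  | n + 1 =>
    haveI := idxFintype n
    inferInstanceAs (Fintype (Fin 3 × Idx n))

/-- cylinder sets -/
def cyl : (n : ℕ) → Idx n → Set ℝ
  | 0, _ => Icc 0 1
  | n + 1, w => S w.1 '' cyl n w.2

lemma F1_cyl (n : ℕ) : F1 ⊆ ⋃ w, cyl n w := by
  induction n with
  | zero => intro x hx; exact mem_iUnion.2 ⟨(() : Unit), F1_icc hx⟩
  | succ n ih =>
    intro x hx
    rw [F1_union, mem_iUnion] at hx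
    obtain ⟨i, y, hy, rfl⟩ := hx
    obtain ⟨w, hw⟩ := mem_iUnion.1 (ih hy)
    exact mem_iUnion.2 ⟨((i, w) : Fin 3 × Idx n), ⟨y, hw, rfl⟩⟩

lemma ediam_S (i : Fin 3) (A : Set ℝ) : ediam (S i '' A) ≤ ENNReal.ofReal (rat i) * ediam A := by
  have h : LipschitzWith (Real.toNNReal (rat i)) (S i) := by
    refine LipschitzWith.of_dist_le_mul fun x y => ?_
    rw [Real.coe_toNNReal _ (rat_pos i).1.le, Real.dist_eq, Real.dist_eq]
    unfold S
    rw [show rat i * x + tr i - (rat i * y + tr i) = rat i * (x - y) by ring, abs_mul,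
      abs_of_pos (rat_pos i).1]
  exact h.ediam_image_le A

lemma ediam_cyl (n : ℕ) (w : Idx n) : ediam (cyl n w) ≤ ENNReal.ofReal ((1 / 9) ^ n) := by
  induction n with
  | zero =>
    show ediam (Icc (0 : ℝ) 1) ≤ _
    rw [Real.ediam_Icc]; simp
  | succ n ih =>
    refine (ediam_S _ _).trans ?_
    rw [pow_succ', ENNReal.ofReal_mul (by norm_num)]
    exact mul_le_mul' (ENNReal.ofReal_le_ofReal (rat_pos _).2) (ih _)

lemma sum_cyl (n : ℕ) : ∑ w, ediam (cyl n w) ^ ((1 : ℝ) / 2) ≤ ENNReal.ofReal ((11 / 12) ^ n) := by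
  induction n with
  | zero =>
    have : ∑ w : Idx 0, ediam (cyl 0 w) ^ ((1 : ℝ) / 2) = ediam (Icc (0 : ℝ) 1) ^ ((1 : ℝ) / 2) :=
      Fintype.sum_unique (fun w : Unit => ediam (cyl 0 w) ^ ((1 : ℝ) / 2))
    rw [this, Real.ediam_Icc]; simp
  | succ n ih =>
    have e : ∑ w : Idx (n + 1), ediam (cyl (n + 1) w) ^ ((1 : ℝ) / 2) =
        ∑ i : Fin 3, ∑ w : Idx n, ediam (S i '' cyl n w) ^ ((1 : ℝ) / 2) :=
      Fintype.sum_prod_type (fun w : Fin 3 × Idx n => ediam (cyl (n + 1) w) ^ ((1 : ℝ) / 2))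
    rw [e]
    have h1 : ∀ i : Fin 3, ∑ w : Idx n, ediam (S i '' cyl n w) ^ ((1 : ℝ) / 2) ≤
        ENNReal.ofReal (rat i ^ ((1 : ℝ) / 2)) * ENNReal.ofReal ((11 / 12) ^ n) := by
      intro i
      refine le_trans ?_ (mul_le_mul' le_rfl ih)
      rw [Finset.mul_sum]
      refine Finset.sum_le_sum fun w _ => ?_
      rw [← ENNReal.ofReal_rpow_of_pos (rat_pos i).1, ← ENNReal.mul_rpow_of_nonneg _ _ (by norm_num)]
      exact ENNReal.rpow_le_rpow (ediam_S i _) (by norm_num)
    refine (Finset.sum_le_sum fun i _ => h1 i).trans ?_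
    rw [← Finset.sum_mul, pow_succ', ENNReal.ofReal_mul (by norm_num)]
    refine mul_le_mul' ?_ le_rfl
    rw [← ENNReal.ofReal_sum_of_nonneg (fun i _ => Real.rpow_nonneg (rat_pos i).1.le _)]
    apply ENNReal.ofReal_le_ofReal
    rw [Fin.sum_univ_three]
    have e9 : (1 / 9 : ℝ) ^ ((1 : ℝ) / 2) = 1 / 3 := by
      rw [← Real.sqrt_eq_rpow, show (1 / 9 : ℝ) = (1 / 3) ^ 2 by norm_num]
      exact Real.sqrt_sq (by norm_num)
    have e16 : (1 / 16 : ℝ) ^ ((1 : ℝ) / 2) = 1 / 4 := by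
      rw [← Real.sqrt_eq_rpow, show (1 / 16 : ℝ) = (1 / 4) ^ 2 by norm_num]
      exact Real.sqrt_sq (by norm_num)
    have r0 : rat 0 = 1 / 9 := rfl
    have r1 : rat 1 = 1 / 16 := rfl
    have r2 : rat 2 = 1 / 9 := rfl
    rw [r0, r1, r2, e9, e16]
    norm_num

lemma dimH_F1 : dimH F1 ≤ 1 / 2 := by
  have h0 : μH[(1 : ℝ) / 2] F1 = 0 := by
    have h1 := Measure.hausdorffMeasure_le_liminf_sum (ι := Idx) ((1 : ℝ) / 2) F1 (l := atTop)
      (fun n : ℕ => ENNReal.ofReal ((1 / 9) ^ n))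
      (by
        have := ENNReal.tendsto_ofReal
          (tendsto_pow_atTop_nhds_zero_of_lt_one (r := (1 / 9 : ℝ)) (by norm_num) (by norm_num))
        rwa [ENNReal.ofReal_zero] at this)
      cyl (Eventually.of_forall ediam_cyl) (Eventually.of_forall F1_cyl)
    have h2 : Tendsto (fun n : ℕ => ENNReal.ofReal ((11 / 12) ^ n)) atTop (𝓝 0) := by
      have := ENNReal.tendsto_ofReal
        (tendsto_pow_atTop_nhds_zero_of_lt_one (r := (11 / 12 : ℝ)) (by norm_num) (by norm_num))
      rwa [ENNReal.ofReal_zero] at this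
    have h3 : liminf (fun n => ∑ i, ediam (cyl n i) ^ ((1 : ℝ) / 2)) atTop ≤ 0 := by
      rw [← h2.liminf_eq]
      exact liminf_le_liminf (Eventually.of_forall sum_cyl)
    exact le_antisymm (h1.trans h3) zero_le
  have h1 : μH[((1 / 2 : ℝ≥0) : ℝ)] F1 ≠ ⊤ := by
    have : (((1 / 2 : ℝ≥0)) : ℝ) = 1 / 2 := by norm_num
    rw [this, h0]
    exact ENNReal.zero_ne_top
  have h2 := dimH_le_of_hausdorffMeasure_ne_top h1
  refine h2.trans (le_of_eq ?_)
  rw [ENNReal.coe_div (by norm_num)]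
  simp


/-! ### Assouad dimension: upper bound -/

lemma covN_le {X : Type*} [PseudoEMetricSpace X] {n : ℕ} {r : ℝ} {A : Set X} (h : Covers n r A) :
    covN r A ≤ n := iInf₂_le n h

/-- a subset of a line is covered economically -/
lemma line_cover {d : ℕ} (v : E d) (hv : v ≠ 0) (A : Set ℝ) (R r : ℝ) (hr : 0 < r) (hrR : r < R)
    (x : ℝ) : covN r (ball (x • v) R ∩ (fun y : ℝ => y • v) '' A) ≤ ENNReal.ofReal (4 * (R / r)) := by
  have hv' : 0 < ‖v‖ := norm_pos_iff.2 hv
  have hR : 0 < R := hr.trans hrR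
  set m : ℕ := ⌈2 * (R / r)⌉₊ with hm
  have h1 : Covers (m + 1) r (ball (x • v) R ∩ (fun y : ℝ => y • v) '' A) := by
    refine ⟨fun i => (fun y : ℝ => y • v) '' Icc (x - R / ‖v‖ + i * (r / ‖v‖))
      (x - R / ‖v‖ + (i + 1) * (r / ‖v‖)), fun i => ?_, ?_⟩
    · have hL : LipschitzWith ‖v‖₊ (fun y : ℝ => y • v) := by
        refine LipschitzWith.of_dist_le_mul fun a b => ?_
        rw [dist_eq_norm, ← sub_smul, norm_smul, Real.dist_eq, mul_comm]
        rfl
      refine (hL.ediam_image_le _).trans ?_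
      rw [Real.ediam_Icc]
      have e : x - R / ‖v‖ + ((i : ℕ) + 1) * (r / ‖v‖) - (x - R / ‖v‖ + (i : ℕ) * (r / ‖v‖)) = r / ‖v‖ := by
        ring
      rw [e]
      have e2 : (‖v‖₊ : ℝ≥0∞) = ENNReal.ofReal ‖v‖ := by
        rw [ENNReal.ofReal, Real.toNNReal_of_nonneg (norm_nonneg v)]; rfl
      rw [e2, ← ENNReal.ofReal_mul hv'.le, mul_div_cancel₀ _ hv'.ne']
    · rintro _ ⟨hy, y, -, rfl⟩
      rw [mem_ball, dist_eq_norm, ← sub_smul, norm_smul, Real.norm_eq_abs] at hy
      have hy' : |y - x| < R / ‖v‖ := by rwa [lt_div_iff₀ hv']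
      rw [abs_lt] at hy'
      have hrv : 0 < r / ‖v‖ := by positivity
      set q : ℝ := (y - (x - R / ‖v‖)) / (r / ‖v‖) with hq
      have hq0 : 0 ≤ q := by
        apply div_nonneg _ hrv.le
        linarith [hy'.1]
      have hq1 : q ≤ 2 * (R / r) := by
        rw [hq, div_le_iff₀ hrv]
        have : 2 * (R / r) * (r / ‖v‖) = 2 * (R / ‖v‖) := by field_simp
        rw [this]
        linarith [hy'.2]
      have hqf : ⌊q⌋₊ < m + 1 := by
        have : ⌊q⌋₊ ≤ m := by
          rw [hm]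
          exact (Nat.floor_le_floor hq1).trans (Nat.floor_le_ceil _)
        omega
      refine mem_iUnion.2 ⟨⟨⌊q⌋₊, hqf⟩, y, ⟨?_, ?_⟩, rfl⟩
      · have := Nat.floor_le hq0
        have h2 : (⌊q⌋₊ : ℝ) * (r / ‖v‖) ≤ q * (r / ‖v‖) := mul_le_mul_of_nonneg_right this hrv.le
        rw [hq, div_mul_cancel₀ _ hrv.ne'] at h2
        show x - R / ‖v‖ + (⌊q⌋₊ : ℝ) * (r / ‖v‖) ≤ y
        rw [hq]
        linarith
      · have := (Nat.lt_floor_add_one q).le
        have h2 : q * (r / ‖v‖) ≤ ((⌊q⌋₊ : ℝ) + 1) * (r / ‖v‖) := mul_le_mul_of_nonneg_right this hrv.le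
        rw [hq, div_mul_cancel₀ _ hrv.ne'] at h2
        show y ≤ x - R / ‖v‖ + ((⌊q⌋₊ : ℝ) + 1) * (r / ‖v‖)
        rw [hq]
        linarith
  refine (covN_le h1).trans ?_
  rw [← ENNReal.ofReal_natCast]
  apply ENNReal.ofReal_le_ofReal
  push_cast
  have h2 := (Nat.ceil_lt_add_one (a := 2 * (R / r)) (by positivity)).le
  have h3 : 1 ≤ R / r := by rw [one_le_div hr]; exact hrR.le
  rw [hm]
  linarith

lemma dimA_line_le {d : ℕ} (v : E d) (hv : v ≠ 0) (A : Set ℝ) :
    dimA ((fun y : ℝ => y • v) '' A) ≤ 1 := by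
  have h : IsAssouadExponent ((fun y : ℝ => y • v) '' A) 1 := by
    refine ⟨4, by norm_num, ?_⟩
    rintro R r hr hrR _ ⟨x, -, rfl⟩
    have := line_cover v hv A R r hr hrR x
    simpa using this
  exact (iInf₂_le (1 : ℝ≥0) h).trans (by simp)

/-! ### Assouad dimension: lower bound -/

lemma le_covN {X : Type*} [PseudoMetricSpace X] {n : ℕ} {r : ℝ} (hr : 0 ≤ r) {A : Set X} (P : Fin n → X)
    (hP : ∀ i, P i ∈ A) (hsep : ∀ i j, i < j → r < dist (P i) (P j)) : (n : ℝ≥0∞) ≤ covN r A := by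
  refine le_iInf₂ fun m hm => ?_
  obtain ⟨U, hU, hA⟩ := hm
  have h1 : ∀ i, ∃ j, P i ∈ U j := fun i => mem_iUnion.1 (hA (hP i))
  choose f hf using h1
  have h2 : ∀ i j, i < j → f i ≠ f j := by
    intro i j hij hfij
    have h3 : edist (P i) (P j) ≤ ENNReal.ofReal r :=
      (edist_le_ediam_of_mem (hf i) (by rw [hfij]; exact hf j)).trans (hU _)
    rw [edist_dist, ENNReal.ofReal_le_ofReal_iff hr] at h3
    exact absurd (hsep i j hij) (not_lt.2 h3)
  have hinj : Function.Injective f := by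
    intro i j hij
    rcases lt_trichotomy i j with h | h | h
    · exact absurd hij (h2 i j h)
    · exact h
    · exact absurd hij.symm (h2 j i h)
  have := Fintype.card_le_of_injective f hinj
  rw [Fintype.card_fin, Fintype.card_fin] at this
  exact_mod_cast this

/-- the two close elements of the semigroup -/
lemma close (ε : ℝ) (hε : 0 < ε) : ∃ a b : ℝ, 0 < b ∧ b < a ∧ a ≤ 1 ∧ 1 - b / a < ε ∧
    ∀ i j : ℕ, a ^ i * b ^ j ∈ F1 := by
  have hl9 : 0 < Real.log 9 := Real.log_pos (by norm_num)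
  have hl16 : 0 < Real.log 16 := Real.log_pos (by norm_num)
  have hl4 : Real.log 16 = 2 * Real.log 4 := by
    rw [show (16 : ℝ) = 4 ^ 2 by norm_num, Real.log_pow]; norm_num
  have h94 : Real.log 4 < Real.log 9 := Real.log_lt_log (by norm_num) (by norm_num)
  obtain ⟨N, hN⟩ := exists_nat_gt (Real.log 16 / ε + 1)
  have hN1 : (1 : ℝ) < N := by
    have : 0 < Real.log 16 / ε := by positivity
    linarith
  have hN0 : 0 < N := by exact_mod_cast (zero_lt_one.trans hN1)
  obtain ⟨j, k, hk0, hkN, hjk⟩ := Real.exists_int_int_abs_mul_sub_le (Real.log 9 / Real.log 16) hN0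
  have hx : 1 / 2 < Real.log 9 / Real.log 16 := by
    rw [div_lt_div_iff₀ (by norm_num) hl16, hl4]; linarith
  have hhalf : (1 : ℝ) / ((N : ℝ) + 1) ≤ 1 / 2 := by
    apply one_div_le_one_div_of_le (by norm_num); linarith
  have hj : 0 < j := by
    have h1 := (abs_le.1 hjk).2
    have h2 : (1 : ℝ) ≤ k := by exact_mod_cast hk0
    have h3 : Real.log 9 / Real.log 16 ≤ k * (Real.log 9 / Real.log 16) := by
      have : 0 ≤ Real.log 9 / Real.log 16 := by positivity
      nlinarith
    have h4 : (0 : ℝ) < j := by linarith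
    exact_mod_cast h4
  obtain ⟨k, rfl⟩ := Int.eq_ofNat_of_zero_le hk0.le
  obtain ⟨j, rfl⟩ := Int.eq_ofNat_of_zero_le hj.le
  have hk0' : 0 < k := by exact_mod_cast hk0
  have hj0' : 0 < j := by exact_mod_cast hj
  have hlog : |(k : ℝ) * Real.log 9 - j * Real.log 16| < ε := by
    have h1 : (k : ℝ) * Real.log 9 - j * Real.log 16 =
        ((k : ℝ) * (Real.log 9 / Real.log 16) - j) * Real.log 16 := by field_simp
    rw [h1, abs_mul, abs_of_pos hl16]
    have h2 : |(k : ℝ) * (Real.log 9 / Real.log 16) - j| ≤ 1 / ((N : ℝ) + 1) := by exact_mod_cast hjk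
    have h3 : 1 / ((N : ℝ) + 1) * Real.log 16 < ε := by
      rw [one_div, inv_mul_eq_div, div_lt_iff₀ (by positivity)]
      have : Real.log 16 / ε < N + 1 := by linarith
      rw [div_lt_iff₀ hε] at this
      linarith
    exact lt_of_le_of_lt (mul_le_mul_of_nonneg_right h2 hl16.le) h3
  have hne : (9 : ℝ) ^ k ≠ 16 ^ j := by
    intro h
    have h' : (9 : ℕ) ^ k = 16 ^ j := by exact_mod_cast h
    have h1 : (9 ^ k) % 2 = 1 := by rw [Nat.pow_mod]; norm_num
    have h2 : (16 ^ j) % 2 = 0 := by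
      rw [Nat.pow_mod]; norm_num [hj0'.ne']
    omega
  -- the two numbers
  set p : ℝ := (1 / 9) ^ k with hp
  set q : ℝ := (1 / 16) ^ j with hq
  have hp0 : 0 < p := by positivity
  have hq0 : 0 < q := by positivity
  have hp1 : p ≤ 1 := pow_le_one₀ (by norm_num) (by norm_num)
  have hq1 : q ≤ 1 := pow_le_one₀ (by norm_num) (by norm_num)
  have hlp : Real.log p = - (k * Real.log 9) := by
    rw [hp, Real.log_pow, one_div, Real.log_inv]; ring
  have hlq : Real.log q = - (j * Real.log 16) := by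
    rw [hq, Real.log_pow, one_div, Real.log_inv]; ring
  have hpq : p ≠ q := by
    intro h
    apply hne
    have h1 : p⁻¹ = q⁻¹ := by rw [h]
    rw [hp, hq, one_div, one_div, inv_pow, inv_pow, inv_inv, inv_inv] at h1
    exact h1
  have key : ∀ a b : ℝ, 0 < a → 0 < b → |Real.log a - Real.log b| < ε → b < a → 1 - b / a < ε := by
    intro a b ha hb h hba
    have h1 : Real.log (b / a) = Real.log b - Real.log a := Real.log_div hb.ne' ha.ne'
    have h2 := Real.add_one_le_exp (Real.log (b / a))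
    rw [Real.exp_log (by positivity), h1] at h2
    have h3 := (abs_lt.1 h).2
    linarith
  have hmem : ∀ i l : ℕ, p ^ i * q ^ l ∈ F1 := by
    intro i l
    rw [hp, hq, ← pow_mul, ← pow_mul]
    exact mn_mem _ _
  rcases lt_or_gt_of_ne hpq with h | h
  · refine ⟨q, p, hp0, h, hq1, key q p hq0 hp0 ?_ h, fun i l => ?_⟩
    · rw [hlp, hlq]
      rw [show -((j : ℝ) * Real.log 16) - -(k * Real.log 9) = k * Real.log 9 - j * Real.log 16 by ring]
      exact hlog
    · rw [mul_comm]; exact hmem l i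
  · refine ⟨p, q, hq0, h, hp1, key p q hp0 hq0 ?_ h, fun i l => hmem i l⟩
    rw [hlp, hlq]
    rw [show -((k : ℝ) * Real.log 9) - -(j * Real.log 16) = -(k * Real.log 9 - j * Real.log 16) by ring,
      abs_neg]
    exact hlog

lemma not_exponent {d : ℕ} (v : E d) (hv : v ≠ 0) (s : ℝ≥0) (hs : s < 1) :
    ¬ IsAssouadExponent ((fun y : ℝ => y • v) '' F1) s := by
  rintro ⟨C, hC, H⟩
  have hv' : 0 < ‖v‖ := norm_pos_iff.2 hv
  have hs' : (0 : ℝ) < 1 - s := by
    have : (s : ℝ) < 1 := by exact_mod_cast hs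
    linarith
  obtain ⟨X0, hX0⟩ := (tendsto_rpow_atTop hs').eventually_gt_atTop (16 * C) |>.exists_forall_of_atTop
  set X1 : ℝ := max X0 16 with hX1
  have hX1pos : 0 < X1 := lt_of_lt_of_le (by norm_num) (le_max_right _ _)
  obtain ⟨a, b, hb0, hba, ha1, hclose, hmem⟩ := close (8 / X1) (by positivity)
  have ha0 : 0 < a := hb0.trans hba
  set t : ℝ := b / a with ht
  have ht0 : 0 < t := by positivity
  have ht1 : t < 1 := by rw [ht, div_lt_one ha0]; exact hba
  set h : ℝ := 1 - t with hh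
  have hh0 : 0 < h := by linarith
  have hX1h : X1 < 8 / h := by
    rw [lt_div_iff₀ hh0]
    rw [lt_div_iff₀ hX1pos] at hclose
    linarith
  have hh2 : h < 1 / 2 := by
    have : (16 : ℝ) < 8 / h := lt_of_le_of_lt (le_max_right _ _) hX1h
    rw [lt_div_iff₀ hh0] at this
    linarith
  set K : ℕ := ⌊1 / (2 * h)⌋₊ with hK
  have hKh : (K : ℝ) * h ≤ 1 / 2 := by
    have := Nat.floor_le (a := 1 / (2 * h)) (by positivity)
    have h2 : (K : ℝ) * h ≤ 1 / (2 * h) * h := mul_le_mul_of_nonneg_right this hh0.le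
    have h3 : 1 / (2 * h) * h = 1 / 2 := by field_simp
    linarith
  have hti : ∀ i : ℕ, i ≤ K → 1 / 2 ≤ t ^ i := by
    intro i hi
    have h1 := one_add_mul_le_pow (a := -h) (by linarith) i
    have h2 : (1 + -h) = t := by rw [hh]; ring
    rw [h2] at h1
    have h3 : (i : ℝ) * h ≤ K * h := mul_le_mul_of_nonneg_right (by exact_mod_cast hi) hh0.le
    linarith
  have haK : 0 < a ^ K := by positivity
  -- the points
  let P : Fin (K + 1) → E d := fun i => (a ^ K * t ^ (i : ℕ)) • v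
  set R : ℝ := 2 * (a ^ K * ‖v‖) with hR
  set r : ℝ := a ^ K * ‖v‖ * h / 4 with hr
  have hr0 : 0 < r := by positivity
  have hrR : r < R := by
    rw [hr, hR]
    have : a ^ K * ‖v‖ * h / 4 < a ^ K * ‖v‖ := by
      have h1 : 0 < a ^ K * ‖v‖ := by positivity
      nlinarith
    have h1 : 0 < a ^ K * ‖v‖ := by positivity
    linarith
  have hRr : R / r = 8 / h := by
    rw [hR, hr]
    have h1 : a ^ K ≠ 0 := haK.ne'
    field_simp
    ring
  have hP : ∀ i, P i ∈ ball ((0 : ℝ) • v) R ∩ (fun y : ℝ => y • v) '' F1 := by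
    intro i
    constructor
    · rw [mem_ball, dist_eq_norm, zero_smul, sub_zero]
      show ‖(a ^ K * t ^ (i : ℕ)) • v‖ < R
      rw [norm_smul, Real.norm_eq_abs, abs_of_pos (by positivity), hR]
      have h1 : t ^ (i : ℕ) ≤ 1 := pow_le_one₀ ht0.le ht1.le
      have h2 : a ^ K * t ^ (i : ℕ) * ‖v‖ ≤ a ^ K * 1 * ‖v‖ := by gcongr
      have h3 : 0 < a ^ K * ‖v‖ := by positivity
      linarith
    · refine ⟨a ^ K * t ^ (i : ℕ), ?_, rfl⟩
      have hi : (i : ℕ) ≤ K := by have := i.2; omega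
      have h1 : a ^ K * t ^ (i : ℕ) = a ^ (K - i) * b ^ (i : ℕ) := by
        rw [ht, div_pow]
        have h2 : a ^ K = a ^ (K - i) * a ^ (i : ℕ) := by rw [← pow_add]; congr 1; omega
        rw [h2]
        field_simp
      rw [h1]
      exact hmem _ _
  have hsep : ∀ i j : Fin (K + 1), i < j → r < dist (P i) (P j) := by
    intro i j hij
    rw [dist_eq_norm]
    show r < ‖(a ^ K * t ^ (i : ℕ)) • v - (a ^ K * t ^ (j : ℕ)) • v‖
    rw [← sub_smul, norm_smul, Real.norm_eq_abs]
    have hi : (i : ℕ) ≤ K := by have := i.2; omega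
    have hij' : (i : ℕ) + 1 ≤ j := by
      have : (i : ℕ) < j := hij
      omega
    have h1 : t ^ (j : ℕ) ≤ t ^ ((i : ℕ) + 1) := pow_le_pow_of_le_one ht0.le ht1.le hij'
    have h2 : h / 2 ≤ t ^ (i : ℕ) - t ^ (j : ℕ) := by
      have h3 := hti i hi
      rw [pow_succ] at h1
      have h4 : t ^ (i : ℕ) - t ^ (i : ℕ) * t = t ^ (i : ℕ) * h := by rw [hh]; ring
      have h5 : 1 / 2 * h ≤ t ^ (i : ℕ) * h := mul_le_mul_of_nonneg_right h3 hh0.le
      linarith
    have h3 : a ^ K * (h / 2) ≤ a ^ K * t ^ (i : ℕ) - a ^ K * t ^ (j : ℕ) := by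
      rw [← mul_sub]
      exact mul_le_mul_of_nonneg_left h2 haK.le
    have h4 : a ^ K * (h / 2) ≤ |a ^ K * t ^ (i : ℕ) - a ^ K * t ^ (j : ℕ)| := h3.trans (le_abs_self _)
    have h5 : a ^ K * (h / 2) * ‖v‖ ≤ |a ^ K * t ^ (i : ℕ) - a ^ K * t ^ (j : ℕ)| * ‖v‖ :=
      mul_le_mul_of_nonneg_right h4 hv'.le
    refine lt_of_lt_of_le ?_ h5
    rw [hr]
    have h6 : 0 < a ^ K * ‖v‖ * h := by positivity
    have h7 : a ^ K * (h / 2) * ‖v‖ = a ^ K * ‖v‖ * h / 2 := by ring
    rw [h7]
    linarith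
  have h1 := le_covN hr0.le P hP hsep
  have h2 := H R r hr0 hrR ((0 : ℝ) • v) ⟨0, zero_mem, rfl⟩
  have h3 := h1.trans h2
  rw [← ENNReal.ofReal_natCast, ENNReal.ofReal_le_ofReal_iff (by positivity), hRr] at h3
  have h4 : 1 / (2 * h) < K + 1 := Nat.lt_floor_add_one _
  have h5 : (1 : ℝ) / (2 * h) = (1 / 16) * (8 / h) := by field_simp; norm_num
  have hXX : 0 < 8 / h := by positivity
  have h6 := hX0 (8 / h) ((le_max_left _ _).trans hX1h.le)
  have h7 : (8 / h) ^ (1 - (s : ℝ)) * (8 / h) ^ (s : ℝ) = 8 / h := by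
    rw [← Real.rpow_add hXX]; simp
  have h8 : 0 < (8 / h) ^ (s : ℝ) := Real.rpow_pos_of_pos hXX _
  have h9 : 16 * C * (8 / h) ^ (s : ℝ) < 8 / h := by
    calc 16 * C * (8 / h) ^ (s : ℝ) < (8 / h) ^ (1 - (s : ℝ)) * (8 / h) ^ (s : ℝ) :=
          mul_lt_mul_of_pos_right h6 h8
      _ = 8 / h := h7
  push_cast at h3
  linarith

lemma dimA_line {d : ℕ} (v : E d) (hv : v ≠ 0) : dimA ((fun y : ℝ => y • v) '' F1) = 1 := by
  refine le_antisymm (dimA_line_le v hv F1) ?_
  refine le_iInf₂ fun s hs => ?_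
  by_contra hcon
  push Not at hcon
  exact not_exponent v hv s (by exact_mod_cast hcon) hs

lemma dimH_line {d : ℕ} (v : E d) : dimH ((fun y : ℝ => y • v) '' F1) ≤ 1 / 2 := by
  have hL : LipschitzWith ‖v‖₊ (fun y : ℝ => y • v) := by
    refine LipschitzWith.of_dist_le_mul fun a b => ?_
    rw [dist_eq_norm, ← sub_smul, norm_smul, Real.dist_eq, mul_comm]
    rfl
  exact (hL.dimH_image_le F1).trans dimH_F1

/-! ### the set in space -/

/-- the first basis vector -/
noncomputable def e1 : E 3 := EuclideanSpace.single 0 1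

/-- the set -/
noncomputable def F : Set (E 3) := (fun y : ℝ => y • e1) '' F1

lemma F_selfSimilar : IsSelfSimilar F := by
  refine ⟨3, rat, fun _ => LinearIsometryEquiv.refl ℝ (E 3), fun i => tr i • e1, ?_, ?_, ?_, ?_, ?_, ?_⟩
  · intro i
    exact ⟨(rat_pos i).1, lt_of_le_of_lt (rat_pos i).2 (by norm_num)⟩
  · intro i x hx j
    have h1 : (rat i • (LinearIsometryEquiv.refl ℝ (E 3)) x + tr i • e1) j =
        rat i * x j + tr i * (if j = 0 then 1 else 0) := by
      simp [e1]
    rw [h1]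
    obtain ⟨h2, h3⟩ := hx j
    by_cases hj : j = 0
    · rw [if_pos hj, mul_one]
      exact S_cube i (x j) ⟨h2, h3⟩
    · rw [if_neg hj, mul_zero, add_zero]
      have h4 := rat_pos i
      constructor
      · exact mul_nonneg h4.1.le h2
      · nlinarith [h4.1, h4.2]
  · exact ⟨_, 0, zero_mem, rfl⟩
  · exact F1_compact.image (by fun_prop)
  · rintro _ ⟨y, hy, rfl⟩ j
    have h1 : (y • e1) j = y * (if j = 0 then 1 else 0) := by
      simp [e1]
    have h2 := F1_icc hy
    rw [h1]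
    by_cases hj : j = 0
    · rw [if_pos hj, mul_one]; exact h2
    · rw [if_neg hj, mul_zero]; norm_num
  · have hcomp : ∀ (i : Fin 3) (y : ℝ), rat i • (LinearIsometryEquiv.refl ℝ (E 3)) (y • e1) + tr i • e1 =
        (S i y) • e1 := by
      intro i y
      show rat i • (y • e1) + tr i • e1 = _
      rw [smul_smul, ← add_smul]; rfl
    ext z
    constructor
    · rintro ⟨y, hy, rfl⟩
      rw [F1_union, mem_iUnion] at hy
      obtain ⟨i, w, hw, rfl⟩ := hy
      exact mem_iUnion.2 ⟨i, w • e1, ⟨w, hw, rfl⟩, hcomp i w⟩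
    · intro hz
      obtain ⟨i, _, ⟨y, hy, rfl⟩, rfl⟩ := mem_iUnion.1 hz
      refine ⟨S i y, ?_, (hcomp i y).symm⟩
      rw [F1_union]
      exact mem_iUnion.2 ⟨i, y, hy, rfl⟩

lemma proj_F (W : Submodule ℝ (E 3)) :
    proj W F = (fun y : ℝ => y • W.starProjection e1) '' F1 := by
  unfold proj F
  rw [image_image]
  refine image_congr fun y _ => ?_
  rw [map_smul]

lemma proj_ne (W : Submodule ℝ (E 3)) (hW : ¬ W ≤ (ℝ ∙ e1)ᗮ) : W.starProjection e1 ≠ 0 := by
  intro h
  apply hW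
  have h1 : e1 ∈ Wᗮ := by
    rw [← Submodule.ker_starProjection]; exact h
  rw [← Submodule.orthogonal_orthogonal W]
  apply Submodule.orthogonal_le
  rw [Submodule.span_singleton_le_iff_mem]
  exact h1

/-- **Theorem.** There is a self-similar set `F ⊆ [0,1]^3` such that
(1) for every plane `W` (two-dimensional linear subspace) other than `e_1^⊥` the orthogonal
projection of `F` to `W` has Assouad dimension `1` and Hausdorff dimension at most `1/2`;
(2) for almost every point `ν` of the unit sphere (surface measure) the Assouad dimension of the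
projection of `F` to the plane orthogonal to `ν` is neither `2` nor the Hausdorff dimension of this
projection; in particular the set of these `ν` has positive measure. -/
theorem result :
    ∃ F : Set (E 3), IsSelfSimilar F ∧
      (∀ W : Submodule ℝ (E 3), Module.finrank ℝ W = 2 → W ≠ (ℝ ∙ (EuclideanSpace.single 0 1 : E 3))ᗮ →
        dimA (proj W F) = 1 ∧ dimH (proj W F) ≤ 1 / 2) ∧
      (∀ᵐ ν ∂surface, Neither F ν) ∧ 0 < surface {ν | Neither F ν} := by
  have hmain : ∀ W : Submodule ℝ (E 3), ¬ W ≤ (ℝ ∙ e1)ᗮ →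
      dimA (proj W F) = 1 ∧ dimH (proj W F) ≤ 1 / 2 := by
    intro W hW
    rw [proj_F]
    exact ⟨dimA_line _ (proj_ne W hW), dimH_line _⟩
  have he1 : e1 ≠ 0 := by
    intro h
    have h1 := congrArg (fun x : E 3 => x 0) h
    simp [e1] at h1
  have hfr : Module.finrank ℝ (ℝ ∙ e1)ᗮ = 2 := by
    have := Submodule.finrank_add_finrank_orthogonal (ℝ ∙ e1)
    rw [finrank_span_singleton he1] at this
    simp only [finrank_euclideanSpace, Fintype.card_fin] at this
    omega
  have hae : ∀ᵐ ν ∂surface, Neither F ν := by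
    unfold Neither plane surface
    have h1 : ∀ᵐ ν : sphere (0 : E 3) 1 ∂(volume : Measure (E 3)).toSphere, (ν : E 3) ∉ (ℝ ∙ e1) := by
      rw [ae_iff]
      have hset : {a : sphere (0 : E 3) 1 | ¬ (a : E 3) ∉ (ℝ ∙ e1)} =
          {a : sphere (0 : E 3) 1 | (a : E 3) ∈ (ℝ ∙ e1)} := by ext a; simp
      rw [hset, Measure.toSphere_apply']
      · have h2 : volume (Ioo (0 : ℝ) 1 • (Subtype.val '' {a : sphere (0 : E 3) 1 | (a : E 3) ∈ (ℝ ∙ e1)}) : Set (E 3)) = 0 := by
          refine measure_mono_null (t := ((ℝ ∙ e1 : Submodule ℝ (E 3)) : Set (E 3))) ?_ ?_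
          · rintro _ ⟨c, _, _, ⟨a, ha, rfl⟩, rfl⟩
            exact Submodule.smul_mem _ c ha
          · refine Measure.addHaar_submodule _ _ ?_
            intro h
            have := finrank_span_singleton (K := ℝ) he1
            rw [h, finrank_top] at this
            simp at this
        rw [h2, mul_zero]
      · exact ((Submodule.closed_of_finiteDimensional (ℝ ∙ e1)).preimage continuous_subtype_val).measurableSet
    filter_upwards [h1] with ν hν
    have hW : ¬ (ℝ ∙ (ν : E 3))ᗮ ≤ (ℝ ∙ e1)ᗮ := by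
      intro h
      have h2 := Submodule.orthogonal_le h
      rw [Submodule.orthogonal_orthogonal, Submodule.orthogonal_orthogonal,
        Submodule.span_singleton_le_iff_mem] at h2
      -- e1 ∈ span ν
      obtain ⟨c, hc⟩ := Submodule.mem_span_singleton.1 h2
      apply hν
      have hc0 : c ≠ 0 := by
        rintro rfl
        rw [zero_smul] at hc
        exact he1 hc.symm
      rw [Submodule.mem_span_singleton]
      exact ⟨c⁻¹, by rw [← hc, smul_smul, inv_mul_cancel₀ hc0, one_smul]⟩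
    obtain ⟨h3, h4⟩ := hmain _ hW
    rw [h3]
    refine ⟨by norm_num, fun h => ?_⟩
    rw [← h] at h4
    have : (1 / 2 : ℝ≥0∞) < 1 := by
      rw [one_div]; exact ENNReal.inv_lt_one.2 (by norm_num)
    exact absurd h4 (not_le.2 this)
  refine ⟨F, F_selfSimilar, ?_, hae, ?_⟩
  · intro W hW hne
    refine hmain W fun hle => hne ?_
    exact Submodule.eq_of_le_of_finrank_eq hle (by rw [hW]; exact hfr.symm)
  · have hne : surface ≠ 0 := Measure.toSphere_ne_zero _
    rw [pos_iff_ne_zero]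
    intro h0
    apply hne
    rw [← Measure.measure_univ_eq_zero]
    have hae' := mem_ae_iff.1 hae
    refine le_antisymm ?_ zero_le
    refine (measure_mono (subset_univ _)).trans ?_
    rw [← union_compl_self {ν : Sph | Neither F ν}]
    refine (measure_union_le _ _).trans ?_
    rw [h0, zero_add]
    exact hae'.le

end Pool.Agent.Results.MP_c72560_an.AssouadProjections
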